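import Pool.Agent.KS6_50.AC.Group

/-!
# MP_bf1c32_co: exponentially many words without additive cubes over every alphabet with three letters

Let `A` be a set with at least three elements of a torsion-free abelian group, for instance a set of
three integers.  We show that for every `n` at least `2 ^ ⌊n / 181⌋` words of length `n` over `A`
occur in two-sided infinite words over `A` without additive cubes, and that there are continuum
many such two-sided words.  For sets with at most two elements no word of length ten or more is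
free of additive cubes.  So the number of words of length `n` over `A` without additive cubes is
either zero for `n ≥ 10`, or it grows exponentially, at an absolute rate which does not depend on
the alphabet; the first alternative holds exactly for the alphabets with at most two letters.

Proof.  The known proofs of avoidability use one uniform map for every alphabet.  Here new maps are
used, in which (at least in one of three consecutive places) the letters of the base word have two
images, between which one can choose freely: exchanging two neighbouring letters inside the image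
creates one new class of boundaries, and the set of all classes still contains no four terms of a
nontrivial arithmetic progression (`Pool/Agent/KS6_50/AC`, files `R012` to `RTern`).
-/

set_option autoImplicit false

namespace Pool.Agent.Results.MP_bf1c32_co.ExponentialGrowth

open Finset

/-- a torsion-free abelian group -/
def TorFree (G : Type) [AddCommGroup G] : Prop := ∀ (n : ℤ) (x : G), n • x = 0 → n = 0 ∨ x = 0

/-- The two-sided infinite word `v` contains an additive cube: three consecutive blocks of the same
positive length `L`, the first of which starts at the place `p`, with the same sum. -/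
def HasCube {G : Type} [AddCommGroup G] (v : ℤ → G) : Prop :=
  ∃ (p : ℤ) (L : ℕ), 0 < L ∧
    ∑ t ∈ range L, v (p + t) = ∑ t ∈ range L, v (p + L + t) ∧
    ∑ t ∈ range L, v (p + L + t) = ∑ t ∈ range L, v (p + 2 * L + t)

/-- the letter at the place `t` of a finite word of length `n` (`0` for `t ≥ n`) -/
def letter {G : Type} [AddCommGroup G] {n : ℕ} (u : Fin n → G) (t : ℕ) : G :=
  if h : t < n then u ⟨t, h⟩ else 0

/-- The finite word `u` of length `n` contains an additive cube. -/
def FinHasCube {G : Type} [AddCommGroup G] {n : ℕ} (u : Fin n → G) : Prop :=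
  ∃ p L : ℕ, 0 < L ∧ p + 3 * L ≤ n ∧
    ∑ t ∈ range L, letter u (p + t) = ∑ t ∈ range L, letter u (p + L + t) ∧
    ∑ t ∈ range L, letter u (p + L + t) = ∑ t ∈ range L, letter u (p + 2 * L + t)

/-- the two-sided infinite words over `A` without additive cubes -/
def infiniteWords {G : Type} [AddCommGroup G] (A : Set G) : Set (ℤ → G) :=
  {v | (∀ n, v n ∈ A) ∧ ¬ HasCube v}

/-- the words of length `n` over `A` without additive cubes -/
def finiteWords {G : Type} [AddCommGroup G] (A : Set G) (n : ℕ) : Set (Fin n → G) :=
  {u | (∀ i, u i ∈ A) ∧ ¬ FinHasCube u}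

/-- the words of length `n` that occur in a two-sided infinite word over `A` without additive
cubes -/
def factors {G : Type} [AddCommGroup G] (A : Set G) (n : ℕ) : Set (Fin n → G) :=
  {u | ∃ v ∈ infiniteWords A, ∃ s : ℤ, ∀ i : Fin n, u i = v (s + (i : ℕ))}

theorem hasCube_iff {G : Type} [AddCommGroup G] (v : ℤ → G) :
    HasCube v ↔ Pool.Agent.Y469.AC.HasPowerZ 3 v := by
  constructor
  · rintro ⟨p, L, hL, h1, h2⟩
    refine ⟨p, L, hL, fun i hi => ?_⟩
    rcases (show i = 0 ∨ i = 1 ∨ i = 2 by omega) with rfl | rfl | rfl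
    · simp
    · simpa using h1.symm
    · simpa using (h1.trans h2).symm
  · rintro ⟨p, L, hL, h⟩
    have h1 := h 1 (by norm_num)
    have h2 := h 2 (by norm_num)
    simp only [Nat.cast_one, one_mul, Nat.cast_ofNat] at h1 h2
    exact ⟨p, L, hL, h1.symm, h1.trans h2.symm⟩

theorem exists_of_three {G : Type} {A : Set G} (h : 3 ≤ A.encard) :
    ∃ x ∈ A, ∃ y ∈ A, ∃ z ∈ A, x ≠ y ∧ x ≠ z ∧ y ≠ z := by
  obtain ⟨B, hBA, hB⟩ := Set.exists_subset_encard_eq h
  obtain ⟨x, y, z, hxy, hxz, hyz, rfl⟩ := Set.encard_eq_three.1 hB
  exact ⟨x, hBA (by simp), y, hBA (by simp), z, hBA (by simp), hxy, hxz, hyz⟩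

theorem rich_of_three {G : Type} [AddCommGroup G] (hG : TorFree G) (A : Set G)
    (h : 3 ≤ A.encard) : Pool.Agent.KS6_50.AC.Rich A := by
  obtain ⟨x, hx, y, hy, z, hz, h1, h2, h3⟩ := exists_of_three h
  refine (Pool.Agent.KS6_50.AC.rich_three hG x y z h1 h2 h3).mono ?_
  intro t ht
  rcases ht with rfl | rfl | rfl
  · exact hx
  · exact hy
  · exact hz

theorem letter_of {G : Type} [AddCommGroup G] {n : ℕ} (u : Fin n → G) (v : ℤ → G) (s : ℤ)
    (h : ∀ i : Fin n, u i = v (s + (i : ℕ))) (t : ℕ) (ht : t < n) : letter u t = v (s + t) := by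
  unfold letter
  rw [dif_pos ht, h]

/-- A word that occurs in a word without additive cubes has no additive cube. -/
theorem factors_subset {G : Type} [AddCommGroup G] (A : Set G) (n : ℕ) :
    factors A n ⊆ finiteWords A n := by
  rintro u ⟨v, ⟨hv, hvf⟩, s, hs⟩
  refine ⟨fun i => by rw [hs]; exact hv _, ?_⟩
  rintro ⟨p, L, hL, hpL, h1, h2⟩
  have e : ∀ q, q + L ≤ n → ∑ t ∈ range L, letter u (q + t) =
      ∑ t ∈ range L, v (s + q + t) := by
    intro q hq
    refine sum_congr rfl fun t ht => ?_
    rw [mem_range] at ht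
    rw [letter_of u v s hs (q + t) (by omega)]
    congr 1
    push_cast
    ring
  rw [e p (by omega), e (p + L) (by omega)] at h1
  rw [e (p + L) (by omega), e (p + 2 * L) (by omega)] at h2
  refine hvf ⟨s + p, L, hL, ?_, ?_⟩
  · simpa [add_assoc] using h1
  · simpa [add_assoc] using h2

/-- The choice sequence that starts with `δ`. -/
def extend {m : ℕ} (δ : Fin m → Bool) (k : ℤ) : Bool :=
  if h : k.toNat < m then δ ⟨k.toNat, h⟩ else false

theorem growth {G : Type} [AddCommGroup G] (A : Set G) (h : Pool.Agent.KS6_50.AC.Rich A) (n : ℕ) :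
    (2 : ℕ∞) ^ (n / 181) ≤ (factors A n).encard := by
  obtain ⟨v, pos, b, c, hA, hv, hpos, hbit⟩ := h
  set m := n / 181 with hm
  let f : (Fin m → Bool) → (Fin n → G) := fun δ i => v (extend δ) (i : ℕ)
  have hf : Function.Injective f := by
    intro δ δ' hδ
    funext k
    have hk1 := (hpos (k : ℕ)).2.1
    have hk2 := (hpos (k : ℕ)).2.2
    have hkm : (k : ℕ) < m := k.2
    have hlt : (pos (k : ℕ)).toNat < n := by omega
    have h1 := congrFun hδ ⟨(pos (k : ℕ)).toNat, hlt⟩
    simp only [f] at h1
    have h2 : (((pos (k : ℕ)).toNat : ℕ) : ℤ) = pos (k : ℕ) := Int.toNat_of_nonneg (by omega)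
    rw [h2, hbit, hbit] at h1
    have h3 : ∀ δ : Fin m → Bool, extend δ (k : ℕ) = δ k := by
      intro δ
      unfold extend
      simp
    rw [h3, h3] at h1
    have h4 := (hpos (k : ℕ)).1
    cases e1 : δ k <;> cases e2 : δ' k <;> simp [e1, e2] at h1 ⊢
    · exact h4 h1.symm
    · exact h4 h1
  have hsub : Set.range f ⊆ factors A n := by
    rintro _ ⟨δ, rfl⟩
    refine ⟨v (extend δ), ⟨hA _, fun hc => hv _ ((hasCube_iff _).1 hc)⟩, 0, fun i => ?_⟩
    simp [f]
  refine le_trans ?_ (Set.encard_le_encard hsub)
  refine le_trans ?_ hf.encard_range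
  simp

theorem continuum_le {G : Type} [AddCommGroup G] (A : Set G) (h : Pool.Agent.KS6_50.AC.Rich A) :
    Cardinal.continuum ≤ Cardinal.mk (infiniteWords A) := by
  obtain ⟨v, pos, b, c, hA, hv, hpos, hbit⟩ := h
  have e : Cardinal.mk (ℤ → Bool) = Cardinal.continuum := by
    simp
  rw [← e]
  refine Cardinal.mk_le_of_injective (f := fun ε : ℤ → Bool =>
    (⟨v ε, ⟨hA _, fun hc => hv _ ((hasCube_iff _).1 hc)⟩⟩ : infiniteWords A)) ?_
  intro ε ε' hε
  have h1 : v ε = v ε' := congrArg Subtype.val hε
  funext k
  have h2 := congrFun h1 (pos k)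
  rw [hbit, hbit] at h2
  have h4 := (hpos k).1
  cases e1 : ε k <;> cases e2 : ε' k <;> simp [e1, e2] at h2 ⊢
  · exact h4 h2.symm
  · exact h4 h2

/-- at most two letters -/
theorem two_letters {G : Type} [AddCommGroup G] (A : Set G) (h : A.encard ≤ 2) (n : ℕ)
    (hn : 10 ≤ n) : finiteWords A n = ∅ := by
  rw [Set.eq_empty_iff_forall_notMem]
  rintro u ⟨hu, huf⟩
  have hab : ∃ a b : G, ∀ x ∈ A, x = a ∨ x = b := by
    by_contra hcon
    push Not at hcon
    have ha : u ⟨0, by omega⟩ ∈ A := hu _
    obtain ⟨b, hb, hb1, -⟩ := hcon (u ⟨0, by omega⟩) (u ⟨0, by omega⟩)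
    obtain ⟨c, hc, hc1, hc2⟩ := hcon (u ⟨0, by omega⟩) b
    have h3 : ({u ⟨0, by omega⟩, b, c} : Set G) ⊆ A := by
      intro t ht
      rcases ht with rfl | rfl | rfl
      · exact ha
      · exact hb
      · exact hc
    have h4 : ({u ⟨0, by omega⟩, b, c} : Set G).encard = 3 :=
      Set.encard_eq_three.2 ⟨_, _, _, hb1.symm, hc1.symm, hc2.symm, rfl⟩
    have h5 := (Set.encard_le_encard h3).trans h
    rw [h4] at h5
    exact absurd h5 (by norm_num)
  obtain ⟨a, b, hab⟩ := hab
  obtain ⟨p, L, hL, hpL, hp⟩ := Pool.Agent.Y469.AC.two a b (letter u) (fun t ht => by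
    unfold letter
    rw [dif_pos (by omega)]
    exact hab _ (hu _))
  have h1 := hp 1 (by norm_num)
  have h2 := hp 2 (by norm_num)
  rw [one_mul] at h1
  exact huf ⟨p, L, hL, by omega, h1.symm, h1.trans h2.symm⟩

/-- **Exponential growth over all alphabets with at least three letters.**  (1) Let `A` be a set of
elements of a torsion-free abelian group.  If `A` has at least three elements, then for every `n`
at least `2 ^ ⌊n / 181⌋` words of length `n` occur in two-sided infinite words over `A` without
additive cubes, and the set of these two-sided words has at least the cardinality of the continuum.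
If `A` has at most two elements, then every word over `A` of length at least ten contains an
additive cube.  (2) In particular, for every set `A` of
exactly three integers there are a one-sided infinite word over `A` without additive cubes, and at
least `2 ^ ⌊n / 181⌋` words of length `n` over `A` without additive cubes. -/
theorem result :
    (∀ (G : Type) [AddCommGroup G], TorFree G → ∀ A : Set G,
      (3 ≤ A.encard →
        (∀ n : ℕ, factors A n ⊆ finiteWords A n ∧
          (2 : ℕ∞) ^ (n / 181) ≤ (factors A n).encard) ∧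
        Cardinal.continuum ≤ Cardinal.mk (infiniteWords A)) ∧
      (A.encard ≤ 2 → ∀ n : ℕ, 10 ≤ n → finiteWords A n = ∅)) ∧
    (∀ A : Finset ℤ, A.card = 3 →
      (∃ w : ℕ → ℤ, (∀ n, w n ∈ A) ∧ ∀ p L : ℕ, 0 < L →
        ¬ (∑ t ∈ range L, w (p + t) = ∑ t ∈ range L, w (p + L + t) ∧
           ∑ t ∈ range L, w (p + L + t) = ∑ t ∈ range L, w (p + 2 * L + t))) ∧
      ∀ n : ℕ, 2 ^ (n / 181) ≤ (finiteWords (A : Set ℤ) n).ncard) := by
  have main : ∀ (G : Type) [AddCommGroup G], TorFree G → ∀ A : Set G,
      (3 ≤ A.encard →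
        (∀ n : ℕ, factors A n ⊆ finiteWords A n ∧
          (2 : ℕ∞) ^ (n / 181) ≤ (factors A n).encard) ∧
        Cardinal.continuum ≤ Cardinal.mk (infiniteWords A)) ∧
      (A.encard ≤ 2 → ∀ n : ℕ, 10 ≤ n → finiteWords A n = ∅) := by
    intro G _ hG A
    refine ⟨fun h => ?_, fun h n hn => two_letters A h n hn⟩
    have hr := rich_of_three hG A h
    exact ⟨fun n => ⟨factors_subset A n, growth A hr n⟩, continuum_le A hr⟩
  refine ⟨main, fun A hA => ?_⟩
  have hZ : TorFree ℤ := by
    intro n x h
    simpa using h
  have h3 : 3 ≤ (A : Set ℤ).encard := by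
    rw [Set.encard_coe_eq_coe_finsetCard, hA]
    norm_num
  obtain ⟨hg, hcont⟩ := (main ℤ hZ (A : Set ℤ)).1 h3
  refine ⟨?_, fun n => ?_⟩
  · have hne : Nonempty (infiniteWords (A : Set ℤ)) := by
      rw [← Cardinal.mk_ne_zero_iff]
      intro h0
      rw [h0] at hcont
      exact absurd hcont (not_le.2 Cardinal.continuum_pos)
    obtain ⟨v, hv, hvf⟩ := hne
    refine ⟨fun n => v n, fun n => by simpa using hv n, fun p L hL h => hvf ⟨p, L, hL, ?_, ?_⟩⟩
    · simpa using h.1
    · simpa using h.2
  · have hfin : (finiteWords (A : Set ℤ) n).Finite := by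
      refine (Set.Finite.pi' (fun _ : Fin n => A.finite_toSet)).subset ?_
      intro u hu i
      exact hu.1 i
    have h1 := (hg n).2.trans (Set.encard_le_encard (hg n).1)
    rw [← hfin.cast_ncard_eq] at h1
    exact_mod_cast h1

end Pool.Agent.Results.MP_bf1c32_co.ExponentialGrowth
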